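import Mathlib
import Pool.Agent.Lib.MP_364315_al.Fin

/-!
Former hand-in: the relation `l^6 = l^8`, now a case of the classification of the relations in one
letter.
-/

set_option autoImplicit false

open CategoryTheory

universe u

namespace Pool.Agent.Lib.MP_364315_al.Variants.ExtraRelation

open Pool.Agent.Lib.MP_364315_al

theorem result :
    PresentedMonoid.mk rels (FreeMonoid.of Letter.l ^ 6) ≠
        PresentedMonoid.mk rels (FreeMonoid.of Letter.l ^ 8) ∧
      ∀ P : MorphismProperty TopCat.{u},
        act P (FreeMonoid.of Letter.l ^ 6) = act P (FreeMonoid.of Letter.l ^ 8) :=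
  ⟨fun h => absurd (pow_inj _ h) (by decide), (one_letter _ 6 8).2 (Or.inr (by decide))⟩

end Pool.Agent.Lib.MP_364315_al.Variants.ExtraRelation
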